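import Pool.Agent.H484.AL.Stm

/-!
# Project AL: separation of vectors in cells with different indices
-/

set_option autoImplicit false

namespace Pool.Agent.H484.AL

open Finset

namespace SepH729

theorem cellS {R B l l' j j' : ℕ} (hB : 8 * R ≤ B) (hl : l < 2 * B ^ j) (hl' : B ^ j' ≤ l')
    (hj : j < j') (hB0 : 0 < B) : R * l ≤ l' := by
  have h1 : R * l ≤ R * (2 * B ^ j) := Nat.mul_le_mul_left R hl.le
  have h2 : R * (2 * B ^ j) ≤ B ^ (j + 1) := by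
    calc R * (2 * B ^ j) = (2 * R) * B ^ j := by ring
      _ ≤ B * B ^ j := Nat.mul_le_mul_right _ (by omega)
      _ = B ^ (j + 1) := by ring
  have h3 : B ^ (j + 1) ≤ B ^ j' := Nat.pow_le_pow_right hB0 hj
  exact ((h1.trans h2).trans h3).trans hl'

theorem kapS {R B N κ κ' x x' k k' : ℕ} (hB : 8 * R ≤ B) (hB0 : 0 < B) (h1 : κ' * B ^ x' ≤ N)
    (h2 : N ≤ 2 * κ * B ^ x) (hx : x < x') (hk : κ < k) (hk' : k' ≤ 2 * κ') : R * k' ≤ k := by
  have h3 : B * B ^ x ≤ B ^ x' := by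
    calc B * B ^ x = B ^ (x + 1) := by ring
      _ ≤ B ^ x' := Nat.pow_le_pow_right hB0 hx
  have h4 : (κ' * B) * B ^ x ≤ (2 * κ) * B ^ x := by
    calc (κ' * B) * B ^ x = κ' * (B * B ^ x) := by ring
      _ ≤ κ' * B ^ x' := Nat.mul_le_mul_left _ h3
      _ ≤ 2 * κ * B ^ x := h1.trans h2
  have h5 : κ' * B ≤ 2 * κ := Nat.le_of_mul_le_mul_right h4 (Nat.pow_pos hB0)
  have h6 : κ' * (8 * R) ≤ κ' * B := Nat.mul_le_mul_left _ hB
  have h7 : 4 * (R * k') ≤ κ' * (8 * R) := by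
    calc 4 * (R * k') ≤ 4 * (R * (2 * κ')) :=
          Nat.mul_le_mul_left _ (Nat.mul_le_mul_left _ hk')
      _ = κ' * (8 * R) := by ring
  omega

theorem mem_L {e g B : ℕ} {α j l : Fin e → ℕ} (h : l ∈ Lset e g B α j) (i : Fin e) :
    B ^ (j i) ≤ l i ∧ l i < 2 * B ^ (j i) := by
  unfold Lset at h
  have h1 := (Finset.mem_filter.1 h).1
  exact Finset.mem_Ico.1 (Fintype.mem_piFinset.1 h1 i)

end SepH729

theorem t_SEP (hKAP : S_KAP) : S_SEP := by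
  intro e R B g M a0 J α hB hR t t' j j' ht ht' hj hj' hne hs l hl l' hl' k k' hk1 hk2 hk1' hk2'
  have hB8 : 8 * R ≤ B := by omega
  have hB0 : 0 < B := by omega
  obtain ⟨a1, a2, _, _⟩ := hKAP e B g M a0 J α hR t j ht hj
  obtain ⟨b1, b2, _, _⟩ := hKAP e B g M a0 J α hR t' j' ht' hj'
  refine ⟨fun i => ?_, ?_⟩
  · obtain ⟨c1, c2⟩ := SepH729.mem_L hl i
    obtain ⟨d1, d2⟩ := SepH729.mem_L hl' i
    rcases Nat.lt_or_gt_of_ne (hne i) with h | h
    · exact Or.inl (SepH729.cellS hB8 c2 d1 h hB0)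
    · exact Or.inr (SepH729.cellS hB8 d2 c1 h hB0)
  · rcases Nat.lt_or_gt_of_ne hs with h | h
    · exact Or.inr (SepH729.kapS hB8 hB0 b1 a2 h hk1 hk2')
    · exact Or.inl (SepH729.kapS hB8 hB0 a1 b2 h hk1' hk2)

end Pool.Agent.H484.AL
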